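import Pool.Agent.Lib.MP_5fb53e_lc.FinalCard

set_option autoImplicit false

namespace Pool.Agent.Results.MP_5fb53e_lc.DiskWidth

/-- Formulas of the counting logic `C` in the vocabulary of graphs. Variables are natural numbers;
`atLeast m x φ` is the counting quantifier `∃^{≥ m + 1} x φ` (so the thresholds are the integers
`≥ 1`, and `atLeast 0 x φ` is `∃ x φ`). -/
inductive Formula : Type
  | eq (x y : ℕ) : Formula
  | adj (x y : ℕ) : Formula
  | neg (φ : Formula) : Formula
  | and (φ ψ : Formula) : Formula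
  | atLeast (m x : ℕ) (φ : Formula) : Formula

/-- The variables occurring in a formula (free or bound, quantified variables included). -/
def Formula.vars : Formula → Finset ℕ
  | .eq x y => {x, y}
  | .adj x y => {x, y}
  | .neg φ => φ.vars
  | .and φ ψ => φ.vars ∪ ψ.vars
  | .atLeast _ x φ => insert x φ.vars

/-- The free variables of a formula. -/
def Formula.free : Formula → Finset ℕ
  | .eq x y => {x, y}
  | .adj x y => {x, y}
  | .neg φ => φ.free
  | .and φ ψ => φ.free ∪ ψ.free
  | .atLeast _ x φ => φ.free.erase x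

/-- Truth of a formula in the graph `G` under the assignment `s`. -/
def Sat {V : Type} (G : SimpleGraph V) : Formula → (ℕ → V) → Prop
  | .eq x y, s => s x = s y
  | .adj x y, s => G.Adj (s x) (s y)
  | .neg φ, s => ¬ Sat G φ s
  | .and φ ψ, s => Sat G φ s ∧ Sat G ψ s
  | .atLeast m x φ, s =>
      ∃ S : Finset V, S.card = m + 1 ∧ ∀ v ∈ S, Sat G φ (Function.update s x v)

/-- The sentence `Φ` defines the graph `G`: it is closed, true in `G`, and false in every finite
(nonempty) graph that is not isomorphic to `G`. -/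
def Defines (Φ : Formula) {n : ℕ} (G : SimpleGraph (Fin n)) : Prop :=
  Φ.free = ∅ ∧ (∀ s : ℕ → Fin n, Sat G Φ s) ∧
    ∀ (m : ℕ) (H : SimpleGraph (Fin m)), IsEmpty (G ≃g H) → ∀ s : ℕ → Fin m, ¬ Sat H Φ s

/-- The counting width: the least number of variables of a sentence of `C` that defines `G`. -/
noncomputable def countingWidth {n : ℕ} (G : SimpleGraph (Fin n)) : ℕ :=
  sInf {w | ∃ Φ : Formula, Defines Φ G ∧ Φ.vars.card = w}

/-- Disk graphs: intersection graphs of closed disks (of positive radii) in the plane. -/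
def IsDiskGraph {n : ℕ} (G : SimpleGraph (Fin n)) : Prop :=
  ∃ (c : Fin n → EuclideanSpace ℝ (Fin 2)) (r : Fin n → ℝ), (∀ v, 0 < r v) ∧
    ∀ u v, u ≠ v →
      (G.Adj u v ↔ (Metric.closedBall (c u) (r u) ∩ Metric.closedBall (c v) (r v)).Nonempty)

/-! ### Every graph has a defining sentence -/

/-- Conjunction of a list of formulas. -/
def conj : List Formula → Formula
  | [] => .eq 0 0
  | φ :: l => .and φ (conj l)

theorem sat_conj {V : Type} (G : SimpleGraph V) (l : List Formula) (s : ℕ → V) :
    Sat G (conj l) s ↔ ∀ φ ∈ l, Sat G φ s := by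
  induction l with
  | nil => simp [conj, Sat]
  | cons φ l ih => simp [conj, Sat, ih]

theorem free_conj (l : List Formula) (x : ℕ) (hx : x ∈ (conj l).free) :
    x = 0 ∨ ∃ φ ∈ l, x ∈ φ.free := by
  induction l with
  | nil => left; simpa [conj, Formula.free] using hx
  | cons φ l ih =>
    simp only [conj, Formula.free, Finset.mem_union] at hx
    rcases hx with hx | hx
    · exact Or.inr ⟨φ, by simp, hx⟩
    · rcases ih hx with h | ⟨ψ, h, h'⟩
      · exact Or.inl h
      · exact Or.inr ⟨ψ, by simp [h], h'⟩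

/-- `∃ x₀ … ∃ x_{k-1} φ`. -/
def exs : ℕ → Formula → Formula
  | 0, φ => φ
  | k + 1, φ => exs k (.atLeast 0 k φ)

theorem sat_exs {V : Type} (G : SimpleGraph V) (k : ℕ) : ∀ (φ : Formula) (s : ℕ → V),
    Sat G (exs k φ) s ↔ ∃ t : ℕ → V, (∀ i, k ≤ i → t i = s i) ∧ Sat G φ t := by
  induction k with
  | zero =>
    intro φ s
    constructor
    · intro h
      exact ⟨s, fun _ _ => rfl, h⟩
    · rintro ⟨t, h1, h2⟩
      have : t = s := funext fun i => h1 i (Nat.zero_le _)
      rw [← this]; exact h2
  | succ k ih =>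
    intro φ s
    simp only [exs]
    rw [ih]
    constructor
    · rintro ⟨t, h1, S, hS, h2⟩
      have hS' : S.Nonempty := by
        rw [← Finset.card_pos, hS]; omega
      obtain ⟨v, hv⟩ := hS'
      refine ⟨Function.update t k v, fun i hi => ?_, h2 v hv⟩
      rw [Function.update_of_ne (by omega)]
      exact h1 i (by omega)
    · rintro ⟨t, h1, h2⟩
      refine ⟨Function.update t k (s k), fun i hi => ?_, {t k}, by simp, ?_⟩
      · by_cases h : i = k
        · subst h; simp
        · rw [Function.update_of_ne h]; exact h1 i (by omega)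
      · intro v hv
        rw [Finset.mem_singleton] at hv
        subst hv
        simpa using h2

theorem free_exs (k : ℕ) : ∀ (φ : Formula) (x : ℕ), x ∈ (exs k φ).free → x ∈ φ.free ∧ k ≤ x := by
  induction k with
  | zero => intro φ x hx; exact ⟨hx, Nat.zero_le _⟩
  | succ k ih =>
    intro φ x hx
    obtain ⟨h1, h2⟩ := ih _ x hx
    simp only [Formula.free, Finset.mem_erase] at h1
    exact ⟨h1.2, by omega⟩

open Classical in
/-- The literals describing the pair `i, j` of vertices of `G`. -/
noncomputable def lit {n : ℕ} (G : SimpleGraph (Fin n)) (p : Fin n × Fin n) : Formula :=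
  if p.1 = p.2 then .eq p.1 p.1
  else .and (.neg (.eq p.1 p.2)) (if G.Adj p.1 p.2 then .adj p.1 p.2 else .neg (.adj p.1 p.2))

theorem sat_lit {n : ℕ} (G : SimpleGraph (Fin n)) (p : Fin n × Fin n) {V : Type}
    (H : SimpleGraph V) (t : ℕ → V) :
    Sat H (lit G p) t ↔
      (p.1 ≠ p.2 → t p.1 ≠ t p.2 ∧ (H.Adj (t p.1) (t p.2) ↔ G.Adj p.1 p.2)) := by
  unfold lit
  split_ifs with h1 h2
  · simp [Sat, h1]
  · simp [Sat, h1, h2]
  · simp [Sat, h1, h2]

theorem free_lit {n : ℕ} (G : SimpleGraph (Fin n)) (p : Fin n × Fin n) (x : ℕ)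
    (hx : x ∈ (lit G p).free) : x < n := by
  have h1 := p.1.2
  have h2 := p.2.2
  unfold lit at hx
  split_ifs at hx
  · simp only [Formula.free, Finset.mem_insert, Finset.mem_singleton] at hx
    omega
  · simp only [Formula.free, Finset.mem_insert, Finset.mem_singleton, Finset.mem_union] at hx
    omega
  · simp only [Formula.free, Finset.mem_insert, Finset.mem_singleton, Finset.mem_union] at hx
    omega

/-- A sentence that defines `G`. -/
noncomputable def desc {n : ℕ} (G : SimpleGraph (Fin n)) : Formula :=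
  .and (exs n (conj ((Finset.univ : Finset (Fin n × Fin n)).toList.map (lit G))))
    (.neg (.atLeast n 0 (.eq 0 0)))

theorem sat_desc {n : ℕ} (G : SimpleGraph (Fin n)) {V : Type} (H : SimpleGraph V) (s : ℕ → V) :
    Sat H (desc G) s ↔ (∃ t : ℕ → V, (∀ i, n ≤ i → t i = s i) ∧ ∀ i j : Fin n, i ≠ j →
      t i ≠ t j ∧ (H.Adj (t i) (t j) ↔ G.Adj i j)) ∧ ¬ ∃ S : Finset V, S.card = n + 1 := by
  have key : ∀ t : ℕ → V, (∀ φ ∈ (Finset.univ : Finset (Fin n × Fin n)).toList.map (lit G),
      Sat H φ t) ↔ ∀ i j : Fin n, i ≠ j → t i ≠ t j ∧ (H.Adj (t i) (t j) ↔ G.Adj i j) := by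
    intro t
    rw [List.forall_mem_map]
    simp only [Finset.mem_toList, Finset.mem_univ, true_implies, sat_lit, Prod.forall]
  simp only [desc, Sat, sat_exs, sat_conj, key, implies_true, and_true]

theorem defines_desc {n : ℕ} (hn : 0 < n) (G : SimpleGraph (Fin n)) : Defines (desc G) G := by
  refine ⟨?_, ?_, ?_⟩
  · rw [Finset.eq_empty_iff_forall_notMem]
    intro x hx
    simp only [desc, Formula.free, Finset.mem_union, Finset.mem_erase, Finset.mem_insert,
      Finset.mem_singleton] at hx
    rcases hx with hx | hx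
    · obtain ⟨h1, h2⟩ := free_exs _ _ _ hx
      rcases free_conj _ _ h1 with h | ⟨φ, h3, h4⟩
      · omega
      · obtain ⟨p, -, rfl⟩ := List.mem_map.1 h3
        have := free_lit G p x h4
        omega
    · omega
  · intro s
    rw [sat_desc]
    refine ⟨⟨fun i => if h : i < n then ⟨i, h⟩ else s i, fun i hi => ?_, fun i j hij => ?_⟩, ?_⟩
    · simp [Nat.not_lt.2 hi]
    · simpa using hij
    · rintro ⟨S, hS⟩
      have := Finset.card_le_univ S
      rw [hS, Fintype.card_fin] at this
      omega
  · intro m H hGH s hs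
    rw [sat_desc] at hs
    obtain ⟨⟨t, -, ht⟩, hcard⟩ := hs
    have hinj : Function.Injective (fun i : Fin n => t i) := by
      intro i j hij
      by_contra h
      exact (ht i j h).1 hij
    have hmn : m ≤ n := by
      by_contra h
      apply hcard
      obtain ⟨S, -, hS⟩ := Finset.exists_subset_card_eq
        (show n + 1 ≤ (Finset.univ : Finset (Fin m)).card by rw [Finset.card_univ, Fintype.card_fin]; omega)
      exact ⟨S, hS⟩
    have hnm : n ≤ m := by
      have := Fintype.card_le_of_injective _ hinj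
      simpa using this
    have hbij : Function.Bijective (fun i : Fin n => t i) := by
      rw [Fintype.bijective_iff_injective_and_card]
      exact ⟨hinj, by simp; omega⟩
    refine hGH.false ⟨Equiv.ofBijective _ hbij, ?_⟩
    intro i j
    by_cases hij : i = j
    · subst hij
      simp
    · exact (ht i j hij).2

theorem le_countingWidth {n : ℕ} (hn : 0 < n) (G : SimpleGraph (Fin n)) (c : ℕ)
    (h : ∀ Φ, Defines Φ G → c < Φ.vars.card) : c < countingWidth G := by
  have hne : {w | ∃ Φ : Formula, Defines Φ G ∧ Φ.vars.card = w}.Nonempty :=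
    ⟨_, desc G, defines_desc hn G, rfl⟩
  obtain ⟨Φ, h1, h2⟩ := Nat.sInf_mem hne
  rw [countingWidth, ← h2]
  exact h Φ h1

/-! ### The bijective game bounds the width from below -/

theorem game {V W : Type} (G : SimpleGraph V) (H : SimpleGraph W) {k : ℕ}
    (P : Set ((Fin k → V) × (Fin k → W)))
    (hP1 : ∀ p ∈ P, ∀ i j : Fin k,
      (p.1 i = p.1 j ↔ p.2 i = p.2 j) ∧ (G.Adj (p.1 i) (p.1 j) ↔ H.Adj (p.2 i) (p.2 j)))
    (hP2 : ∀ p ∈ P, ∀ i : Fin k, ∃ f : V ≃ W, ∀ v,
      (Function.update p.1 i v, Function.update p.2 i (f v)) ∈ P)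
    (ρ : ℕ → Fin k) (φ : Formula) : Set.InjOn ρ φ.vars → ∀ p ∈ P, ∀ (s : ℕ → V) (t : ℕ → W),
      (∀ x ∈ φ.vars, s x = p.1 (ρ x)) → (∀ x ∈ φ.vars, t x = p.2 (ρ x)) →
      (Sat G φ s ↔ Sat H φ t) := by
  induction φ with
  | eq x y =>
    intro hρ p hp s t hs ht
    simp only [Sat]
    rw [hs x (by simp [Formula.vars]), hs y (by simp [Formula.vars]),
      ht x (by simp [Formula.vars]), ht y (by simp [Formula.vars])]
    exact (hP1 p hp _ _).1
  | adj x y =>
    intro hρ p hp s t hs ht
    simp only [Sat]
    rw [hs x (by simp [Formula.vars]), hs y (by simp [Formula.vars]),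
      ht x (by simp [Formula.vars]), ht y (by simp [Formula.vars])]
    exact (hP1 p hp _ _).2
  | neg φ ih =>
    intro hρ p hp s t hs ht
    simp only [Sat]
    rw [ih hρ p hp s t hs ht]
  | and φ ψ ih1 ih2 =>
    intro hρ p hp s t hs ht
    simp only [Sat]
    have h1 : φ.vars ⊆ (Formula.and φ ψ).vars := Finset.subset_union_left
    have h2 : ψ.vars ⊆ (Formula.and φ ψ).vars := Finset.subset_union_right
    rw [ih1 (hρ.mono (by exact_mod_cast h1)) p hp s t (fun x hx => hs x (h1 hx))
        (fun x hx => ht x (h1 hx)),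
      ih2 (hρ.mono (by exact_mod_cast h2)) p hp s t (fun x hx => hs x (h2 hx))
        (fun x hx => ht x (h2 hx))]
  | atLeast m x φ ih =>
    intro hρ p hp s t hs ht
    have h1 : φ.vars ⊆ (Formula.atLeast m x φ).vars := Finset.subset_insert _ _
    have hx : x ∈ (Formula.atLeast m x φ).vars := Finset.mem_insert_self _ _
    obtain ⟨f, hf⟩ := hP2 p hp (ρ x)
    have key : ∀ v, Sat G φ (Function.update s x v) ↔ Sat H φ (Function.update t x (f v)) := by
      intro v
      refine ih (hρ.mono (by exact_mod_cast h1)) _ (hf v) _ _ ?_ ?_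
      · intro y hy
        by_cases hyx : y = x
        · subst hyx; simp
        · have h2 : ρ y ≠ ρ x := fun h => hyx (hρ (by exact_mod_cast h1 hy)
            (by exact_mod_cast hx) h)
          simp only
          rw [Function.update_of_ne hyx, Function.update_of_ne h2]
          exact hs y (h1 hy)
      · intro y hy
        by_cases hyx : y = x
        · subst hyx; simp
        · have h2 : ρ y ≠ ρ x := fun h => hyx (hρ (by exact_mod_cast h1 hy)
            (by exact_mod_cast hx) h)
          simp only
          rw [Function.update_of_ne hyx, Function.update_of_ne h2]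
          exact ht y (h1 hy)
    simp only [Sat]
    constructor
    · rintro ⟨S, hS, h⟩
      refine ⟨S.map f.toEmbedding, by rw [Finset.card_map, hS], ?_⟩
      intro w hw
      obtain ⟨v, hv, rfl⟩ := Finset.mem_map.1 hw
      exact (key v).1 (h v hv)
    · rintro ⟨S, hS, h⟩
      refine ⟨S.map f.symm.toEmbedding, by rw [Finset.card_map, hS], ?_⟩
      intro v hv
      obtain ⟨w, hw, rfl⟩ := Finset.mem_map.1 hv
      rw [key]
      simpa using h w hw

theorem vars_nonempty (φ : Formula) : φ.vars.Nonempty := by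
  induction φ with
  | eq x y => exact ⟨x, by simp [Formula.vars]⟩
  | adj x y => exact ⟨x, by simp [Formula.vars]⟩
  | neg φ ih => exact ih
  | and φ ψ ih _ => exact ih.mono Finset.subset_union_left
  | atLeast m x φ ih => exact ⟨x, by simp [Formula.vars]⟩

/-- **The counting width of disk graphs is unbounded**, and grows at least like the fourth root of
the number of vertices. -/
theorem result (c : ℕ) : ∃ (n : ℕ) (G : SimpleGraph (Fin n)),
    n ≤ 286 * (c + 3) ^ 4 ∧ IsDiskGraph G ∧ c < countingWidth G := by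
  obtain ⟨α, _, _, G, H, hcard, ⟨c', r, hr, hc⟩, ⟨P, hP1, hP2, hP3⟩, hno⟩ :=
    Pool.Agent.DiskCFI.finalCard c
  classical
  let e : α ≃ Fin (Fintype.card α) := Fintype.equivFin α
  have hpos : 0 < Fintype.card α := Fintype.card_pos
  refine ⟨Fintype.card α, G.comap e.symm, hcard, ?_, le_countingWidth hpos _ c ?_⟩
  · refine ⟨fun i => !₂[(c' (e.symm i)).1, (c' (e.symm i)).2], fun i => r (e.symm i),
      fun i => hr _, fun i j hij => ?_⟩
    have h1 : e.symm i ≠ e.symm j := fun h => hij (e.symm.injective h)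
    have hri := hr (e.symm i)
    have hrj := hr (e.symm j)
    have h2 : 0 ≤ r (e.symm i) + r (e.symm j) := by linarith
    rw [← Set.not_disjoint_iff_nonempty_inter,
      disjoint_closedBall_closedBall_iff hri.le hrj.le, not_lt]
    rw [SimpleGraph.comap_adj, hc _ _ h1, EuclideanSpace.dist_eq, Real.sqrt_le_left h2]
    simp [Real.dist_eq, sq_abs]
  · intro Φ hΦ
    by_contra hlt
    rw [not_lt] at hlt
    have hcpos : 0 < c := lt_of_lt_of_le (Finset.card_pos.2 (vars_nonempty Φ)) hlt
    have hemb : Nonempty ({x // x ∈ Φ.vars} ↪ Fin c) :=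
      Function.Embedding.nonempty_of_card_le (by simpa using hlt)
    obtain ⟨g⟩ := hemb
    let ρ : ℕ → Fin c := fun x => if h : x ∈ Φ.vars then g ⟨x, h⟩ else ⟨0, hcpos⟩
    have hρ : Set.InjOn ρ Φ.vars := by
      intro x hx y hy hxy
      have hx' : x ∈ Φ.vars := by exact_mod_cast hx
      have hy' : y ∈ Φ.vars := by exact_mod_cast hy
      simp only [ρ, hx', hy', dif_pos] at hxy
      exact congrArg Subtype.val (g.injective hxy)
    have hiso : IsEmpty (G.comap e.symm ≃g H.comap e.symm) := by
      refine ⟨fun Ψ => hno.false ?_⟩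
      exact ((SimpleGraph.Iso.comap e.symm G).symm.trans Ψ).trans (SimpleGraph.Iso.comap e.symm H)
    obtain ⟨-, h1, h2⟩ := hΦ
    have h3 := h2 _ _ hiso
    obtain ⟨f, hf⟩ := hP3
    let v0 : α := Classical.arbitrary α
    have hg := game (G.comap e.symm) (H.comap e.symm)
      {p | (fun i => e.symm (p.1 i), fun i => e.symm (p.2 i)) ∈ P} ?_ ?_ ρ Φ hρ
      ((fun _ => e v0), (fun _ => e (f v0))) (by simpa using hf v0)
      (fun _ => e v0) (fun _ => e (f v0)) (fun _ _ => rfl) (fun _ _ => rfl)
    · exact h3 _ (hg.1 (h1 _))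
    · intro p hp i j
      have := hP1 _ hp i j
      simp only [EmbeddingLike.apply_eq_iff_eq] at this
      exact this
    · intro p hp i
      obtain ⟨f, hf⟩ := hP2 _ hp i
      refine ⟨(e.symm.trans f).trans e, fun v => ?_⟩
      have h1 := hf (e.symm v)
      simp only [Set.mem_ofPred_eq]
      convert h1 using 2
      · funext j
        simp only [Function.update_apply]
        split_ifs <;> simp
      · funext j
        simp only [Function.update_apply]
        split_ifs <;> simp

end Pool.Agent.Results.MP_5fb53e_lc.DiskWidth
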